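import Pool.Agent.Lib.MP_1f0905_gt.Mf.Fin

namespace Pool.Agent.Results.MP_1f0905_gt.Manifold

open Pool.Agent.Lib.MP_1f0905_gt

/-- In every dimension `n ≥ 2` there is a connected Hausdorff `n`-manifold of weight at most `ℵ₁`
which contains no perfect preimage of `ω₁` and is not quasi developable. -/
theorem result (n : ℕ) (hn : 2 ≤ n) : ∃ (M : Type) (_ : TopologicalSpace M)
    (_ : ChartedSpace (EuclideanSpace ℝ (Fin n)) M), T2Space M ∧ ConnectedSpace M ∧
    WeightLE M (Cardinal.aleph 1) ∧ ¬ ContainsPerfectPreimageOfOmegaOne M ∧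
    ¬ QuasiDevelopable M := by
  obtain ⟨k, rfl⟩ := Nat.exists_eq_add_of_le' hn
  exact Mf.exists_manifold k

end Pool.Agent.Results.MP_1f0905_gt.Manifold
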