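import Mathlib
import Pool.Agent.Lib.MP_1f0905_gt.PvMain

set_option autoImplicit false

namespace Pool.Agent.Results.MP_1f0905_gt.NoDichotomyProv

open Pool.Agent.Lib.Common.Forcing Pool.Agent.Lib.MP_60e7f9_lc

/-- Sanity check: the proof system does not prove falsity. -/
theorem consistent : ¬ Prov.Prf [] Fm.bot := Prov.not_prf_bot

/-- ZFC proves that some Hausdorff, locally compact, locally metrizable space of weight at most
`ℵ₁` contains no perfect preimage of `ω₁` and is not quasi developable. -/
theorem result : Prov.Prf [] (Prov.noDich 0) := Prov.prf_noDich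

end Pool.Agent.Results.MP_1f0905_gt.NoDichotomyProv
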